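import Pool.Agent.Run7.h325.HRT.Stm

set_option autoImplicit false

/-!
# HRT project, piece PMAIN: the bound for one `m`
-/

namespace Pool.Agent.Run7.h321.HRT

noncomputable section

open Real
open Pool.Agent.Run7.h325.HRT

lemma f_ge (m q : ℕ) (hm : 1 ≤ m) : q < f m q := by
  unfold f
  calc q < 1024 ^ q := Nat.lt_pow_self (by norm_num)
    _ = 1 * 1024 ^ q := (one_mul _).symm
    _ ≤ m * 1024 ^ q := Nat.mul_le_mul_right _ hm

lemma f_succ (m q : ℕ) : f m (q + 1) = 1024 * f m q := by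
  unfold f
  rw [pow_succ]
  ring

lemma adm_Lf (m q M : ℕ) : 50 * (Lf m q M) ^ 2 * (Nq m q) ^ 4 ≤ 5 ^ f m (q + 1) := by
  by_cases h : Lf m q M = 0
  · rw [h]
    simp
  · have := Nat.findGreatest_of_ne_zero (P := Adm m q M) (n := M) rfl h
    exact this.1

lemma K_zero (m q : ℕ) (y : ℝ) : K m q 0 y = 0 := by
  unfold K
  simp

lemma K_nonneg (hK : S_KPOS) (m q M : ℕ) (hm : 1 ≤ m) (hq : 1 ≤ q) (y : ℝ) :
    0 ≤ K m q (Lf m q M) y := by
  by_cases h : Lf m q M = 0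
  · rw [h, K_zero]
  · exact (hK m q (Lf m q M) hm hq (Nat.one_le_iff_ne_zero.mpr h) (adm_Lf m q M)).1 y

lemma eps_pos (hA : S_APROP) (m q : ℕ) (hm : 1 ≤ m) : 0 < eps m q := by
  have h := ((hA m hm).2.2 q).1
  have h5 : (0 : ℝ) < ((5 : ℝ) ^ f m (q + 1))⁻¹ := by positivity
  unfold eps D Nq
  have : 0 < rho m q := lt_trans h5 h
  positivity

lemma eps_le (hA : S_APROP) (m q : ℕ) (hm : 1 ≤ m) :
    eps m q ≤ 2 * (5 : ℝ) ^ f m q * ((5 : ℝ) ^ f m (q + 1))⁻¹ := by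
  have h := ((hA m hm).2.2 q).2.1
  unfold eps D Nq
  have hs : Real.sqrt 2 ≤ 8 / 5 := by
    rw [Real.sqrt_le_left (by norm_num)]
    norm_num
  have h5 : (0 : ℝ) < ((5 : ℝ) ^ f m (q + 1))⁻¹ := by positivity
  push_cast
  calc Real.sqrt 2 * (5 : ℝ) ^ f m q * rho m q
      ≤ Real.sqrt 2 * (5 : ℝ) ^ f m q * (5 / 4 * ((5 : ℝ) ^ f m (q + 1))⁻¹) := by
        gcongr
    _ ≤ 8 / 5 * (5 : ℝ) ^ f m q * (5 / 4 * ((5 : ℝ) ^ f m (q + 1))⁻¹) := by
        gcongr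
    _ = 2 * (5 : ℝ) ^ f m q * ((5 : ℝ) ^ f m (q + 1))⁻¹ := by ring

/-- first bound on the sum over `q` -/
lemma sum_lower (hA : S_APROP) (hK : S_KPOS) (hU : S_KUP) (m M : ℕ) (hm : 1 ≤ m) (x y : ℝ) :
    - (2 / eps m 0) - M * (10 * x ^ 2) ≤
      ∑ q ∈ Finset.range M, (K m q (Lf m q M) y - K m q (Lf m q M) x) := by
  rw [Finset.sum_sub_distrib]
  have h1 : ∑ q ∈ Finset.range M, K m q (Lf m q M) x ≤ M * (10 * x ^ 2) := by
    calc ∑ q ∈ Finset.range M, K m q (Lf m q M) x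
        ≤ ∑ q ∈ Finset.range M, 10 * x ^ 2 :=
          Finset.sum_le_sum (fun q _ => (le_abs_self _).trans
            ((hU m q (Lf m q M) hm (adm_Lf m q M)).1 x))
      _ = M * (10 * x ^ 2) := by simp
  have h2 : - (2 / eps m 0) ≤ ∑ q ∈ Finset.range M, K m q (Lf m q M) y := by
    have he := eps_pos hA m 0 hm
    cases M with
    | zero =>
      simp only [Finset.range_zero, Finset.sum_empty]
      have : 0 < 2 / eps m 0 := by positivity
      linarith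
    | succ M =>
      rw [Finset.sum_range_succ']
      have h3 : 0 ≤ ∑ q ∈ Finset.range M, K m (q + 1) (Lf m (q + 1) (M + 1)) y :=
        Finset.sum_nonneg (fun q _ => K_nonneg hK m (q + 1) (M + 1) hm (by omega) y)
      have h4 := (abs_le.mp ((hU m 0 (Lf m 0 (M + 1)) hm (adm_Lf m 0 (M + 1))).2 y)).1
      linarith
  linarith

/-- second bound on the sum over `q`, with the gain of one level -/
lemma sum_lower' (hA : S_APROP) (hK : S_KPOS) (hU : S_KUP) (m M : ℕ) (hm : 1 ≤ m) (x y : ℝ)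
    (q : ℕ) (hq : 1 ≤ q) (hM : 5 ^ f m q ≤ M)
    (hy : 4 * |y| * (5 : ℝ) ^ f m q ≤ (5 : ℝ) ^ f m (q + 1)) :
    - (2 / eps m 0) - M * (10 * x ^ 2) +
      y ^ 2 / (20 * (5 : ℝ) ^ f m q * (5 : ℝ) ^ f m (q + 1)) ≤
      ∑ q ∈ Finset.range M, (K m q (Lf m q M) y - K m q (Lf m q M) x) := by
  have hqf : q < f m q := f_ge m q hm
  have hqM : q < M := by
    have : f m q < 5 ^ f m q := Nat.lt_pow_self (by norm_num)
    omega
  -- the level `q` has `Lf ≥ 1`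
  have hadm : Adm m q M 1 := by
    refine ⟨?_, ?_⟩
    · rw [f_succ]
      unfold Nq
      rw [← pow_mul]
      calc 50 * 1 ^ 2 * 5 ^ (f m q * 4) ≤ 5 ^ 3 * 5 ^ (f m q * 4) := by
            gcongr
            norm_num
        _ = 5 ^ (3 + f m q * 4) := by rw [← pow_add]
        _ ≤ 5 ^ (1024 * f m q) := Nat.pow_le_pow_right (by norm_num) (by omega)
    · unfold Nq
      omega
  have hM1 : 1 ≤ M := by omega
  have hL : 1 ≤ Lf m q M := Nat.le_findGreatest hM1 hadm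
  -- the gain
  have hgain : y ^ 2 / (20 * (5 : ℝ) ^ f m q * (5 : ℝ) ^ f m (q + 1)) ≤ K m q (Lf m q M) y := by
    refine (hK m q (Lf m q M) hm hq hL (adm_Lf m q M)).2 y ?_
    rw [abs_mul, abs_of_pos (eps_pos hA m q hm)]
    have he := eps_le hA m q hm
    have h5 : (0 : ℝ) < (5 : ℝ) ^ f m (q + 1) := by positivity
    calc eps m q * |y| ≤ (2 * (5 : ℝ) ^ f m q * ((5 : ℝ) ^ f m (q + 1))⁻¹) * |y| := by
          gcongr
      _ = (4 * |y| * (5 : ℝ) ^ f m q) * ((5 : ℝ) ^ f m (q + 1))⁻¹ * (1 / 2) := by ring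
      _ ≤ (5 : ℝ) ^ f m (q + 1) * ((5 : ℝ) ^ f m (q + 1))⁻¹ * (1 / 2) := by
          gcongr
      _ = 1 / 2 := by
          rw [mul_inv_cancel₀ h5.ne']
          norm_num
  rw [Finset.sum_sub_distrib]
  have h1 : ∑ q ∈ Finset.range M, K m q (Lf m q M) x ≤ M * (10 * x ^ 2) := by
    calc ∑ q ∈ Finset.range M, K m q (Lf m q M) x
        ≤ ∑ q ∈ Finset.range M, 10 * x ^ 2 :=
          Finset.sum_le_sum (fun q _ => (le_abs_self _).trans
            ((hU m q (Lf m q M) hm (adm_Lf m q M)).1 x))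
      _ = M * (10 * x ^ 2) := by simp
  have h2 : - (2 / eps m 0) + K m q (Lf m q M) y ≤
      ∑ q ∈ Finset.range M, K m q (Lf m q M) y := by
    have h4 := (abs_le.mp ((hU m 0 (Lf m 0 M) hm (adm_Lf m 0 M)).2 y)).1
    have h0M : (0 : ℕ) ∈ Finset.range M := Finset.mem_range.mpr hM1
    rw [← Finset.add_sum_erase _ _ h0M]
    have hqe : q ∈ (Finset.range M).erase 0 := by
      rw [Finset.mem_erase, Finset.mem_range]
      omega
    have h5 : K m q (Lf m q M) y ≤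
        ∑ q ∈ (Finset.range M).erase 0, K m q (Lf m q M) y := by
      refine Finset.single_le_sum (f := fun q => K m q (Lf m q M) y) ?_ hqe
      intro p hp
      rw [Finset.mem_erase] at hp
      exact K_nonneg hK m p M hm (by omega) y
    linarith
  linarith

theorem pmain (hA : S_APROP) (hK : S_KPOS) (hU : S_KUP) (hT : S_TAIL) (hS : S_SPLIT) :
    S_PMAIN := by
  intro m x hm hx
  obtain ⟨hA0, hA1, -⟩ := hA m hm
  obtain ⟨C₁, hC₁, h1⟩ := hT (Am m) x hA0 (by linarith) hx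
  obtain ⟨C₂, hC₂, h2⟩ := hS m hm
  have he := eps_pos hA m 0 hm
  have he2 : 0 < 2 / eps m 0 := by positivity
  refine ⟨C₁ + C₂ + 10 * x ^ 2 + 2 / eps m 0, by positivity, ?_⟩
  intro n R hn hR
  have hR1 : (1 : ℝ) ≤ (R : ℝ) := by exact_mod_cast hR
  have hn1 : (1 : ℝ) ≤ (n : ℝ) := by exact_mod_cast hn
  have hlogn : 0 ≤ Real.log n := Real.log_nonneg hn1
  have hlogR : 0 ≤ Real.log R := Real.log_nonneg hR1
  have hR40 : (1 : ℝ) ≤ (R : ℝ) ^ 40 := one_le_pow₀ hR1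
  have hR4 : (R : ℝ) ^ 4 ≤ (R : ℝ) ^ 40 := pow_le_pow_right₀ hR1 (by norm_num)
  set E : ℝ := ((n : ℝ) / R + 1) * (1 + Real.log n + Real.log R) with hE
  have hE0 : 0 ≤ E := by positivity
  -- the basic comparison
  have hbasic : S (Am m) x n ≤ C₁ * E + C₂ * (R : ℝ) ^ 40 -
      ∑ q ∈ Finset.range (R ^ 4), (K m q (Lf m q (R ^ 4)) (x + n) - K m q (Lf m q (R ^ 4)) x) := by
    have h3 := h1 n R hn hR
    have h4 := h2 x n (R ^ 4) (Nat.one_le_pow _ _ hR)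
    have h5 : S (Am m) x n - ∑ k ∈ Finset.range n, phiM (Am m) (R ^ 4) (x + k + 1 / 2) ≤
        ∑ k ∈ Finset.range n, |phi (Am m) (x + k + 1 / 2) - phiM (Am m) (R ^ 4) (x + k + 1 / 2)| := by
      unfold S
      rw [← Finset.sum_sub_distrib]
      exact Finset.sum_le_sum (fun k _ => le_abs_self _)
    have h6 := (abs_le.mp h4).2
    have h7 : C₂ * ((R ^ 4 : ℕ) : ℝ) ^ 10 = C₂ * (R : ℝ) ^ 40 := by
      push_cast
      ring
    rw [h7] at h6
    have h8 : C₁ * ((n : ℝ) / R + 1) * (1 + Real.log n + Real.log R) = C₁ * E := by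
      rw [hE]
      ring
    rw [h8] at h3
    linarith
  have hcast : ((R ^ 4 : ℕ) : ℝ) = (R : ℝ) ^ 4 := by push_cast; ring
  have hx2 : 0 ≤ x ^ 2 := sq_nonneg x
  have hfin : C₁ * E + C₂ * (R : ℝ) ^ 40 + 2 / eps m 0 + (R : ℝ) ^ 4 * (10 * x ^ 2) ≤
      (C₁ + C₂ + 10 * x ^ 2 + 2 / eps m 0) * ((R : ℝ) ^ 40 + E) := by
    have e1 : 0 ≤ C₁ * (R : ℝ) ^ 40 := by positivity
    have e2 : 0 ≤ C₂ * E := by positivity
    have e3 : 0 ≤ 10 * x ^ 2 * E := by positivity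
    have e4 : 0 ≤ 2 / eps m 0 * E := by positivity
    have e5 : 2 / eps m 0 * 1 ≤ 2 / eps m 0 * (R : ℝ) ^ 40 := by gcongr
    have e6 : (R : ℝ) ^ 4 * (10 * x ^ 2) ≤ (R : ℝ) ^ 40 * (10 * x ^ 2) := by gcongr
    nlinarith
  refine ⟨?_, ?_⟩
  · have h9 := sum_lower hA hK hU m (R ^ 4) hm x (x + n)
    rw [hcast] at h9
    linarith
  · intro q hq hqR hqn
    have h10 : 4 * |x + n| * (5 : ℝ) ^ f m q ≤ (5 : ℝ) ^ f m (q + 1) := by
      refine le_trans ?_ hqn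
      have : |x + n| ≤ (n : ℝ) + |x| := by
        calc |x + n| ≤ |x| + |(n : ℝ)| := abs_add_le _ _
          _ = (n : ℝ) + |x| := by rw [abs_of_nonneg (by positivity : (0 : ℝ) ≤ (n : ℝ))]; ring
      gcongr
    have h9 := sum_lower' hA hK hU m (R ^ 4) hm x (x + n) q hq hqR h10
    rw [hcast] at h9
    linarith

end

end Pool.Agent.Run7.h321.HRT
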